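import Pool.Agent.UTR.Stmts
import Pool.Agent.Helper64_FR.Basic
import Pool.Agent.Helper64_FR.FIX
import Pool.Agent.Helper64_FR.Rot

/-!
# MP_3b0ba7_pr, squad UTR, row EQV (helper20): equivariance of the vectors `T_ii v`
-/

set_option autoImplicit false

open MeasureTheory Matrix Finset
open scoped ComplexConjugate

namespace Pool.Agent.UTR.H20

open Pool.Agent.Helper64_FR

variable {n : ℕ}

theorem conj_left {S : Finset (Fin n)} {l : Fin n} (hl : l ∉ S) (g : UU n) (hg : g ∈ UB S)
    (i : Fin n) : (g : Matrix (Fin n) (Fin n) ℂ) * EE i l * star (g : Matrix (Fin n) (Fin n) ℂ) =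
      ∑ k, ((g : Matrix (Fin n) (Fin n) ℂ) k i) • EE k l := by
  rw [conj_EE]
  refine Finset.sum_congr rfl fun k _ => ?_
  rw [Finset.sum_eq_single l]
  · have h1 : (g : Matrix (Fin n) (Fin n) ℂ) l l = if l = l then 1 else 0 := hg l l (Or.inl hl)
    rw [h1, if_pos rfl, map_one, mul_one]
  · intro m _ hm
    have h1 : (g : Matrix (Fin n) (Fin n) ℂ) m l = if m = l then 1 else 0 := hg m l (Or.inr hl)
    rw [h1, if_neg hm, map_zero, mul_zero, zero_smul]
  · intro h
    exact absurd (Finset.mem_univ _) h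

theorem conj_right {S : Finset (Fin n)} {l : Fin n} (hl : l ∉ S) (g : UU n) (hg : g ∈ UB S)
    (j : Fin n) : (g : Matrix (Fin n) (Fin n) ℂ) * EE l j * star (g : Matrix (Fin n) (Fin n) ℂ) =
      ∑ m, (conj ((g : Matrix (Fin n) (Fin n) ℂ) m j)) • EE l m := by
  rw [conj_EE, Finset.sum_eq_single l]
  · have h1 : (g : Matrix (Fin n) (Fin n) ℂ) l l = if l = l then 1 else 0 := hg l l (Or.inl hl)
    rw [h1, if_pos rfl]
    refine Finset.sum_congr rfl fun m _ => ?_
    rw [one_mul]
  · intro k _ hk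
    have h1 : (g : Matrix (Fin n) (Fin n) ℂ) k l = if k = l then 1 else 0 := hg k l (Or.inr hl)
    rw [h1, if_neg hk]
    simp
  · intro h
    exact absurd (Finset.mem_univ _) h

theorem op_D {ρ : URep n} {D : Matrix (Fin n) (Fin n) ℂ →ₗ[ℂ] (ρ.Sp →L[ℂ] ρ.Sp)}
    (hD : IsDer ρ D) (g : UU n) (Z : Matrix (Fin n) (Fin n) ℂ) (x : ρ.Sp) :
    ρ.op g (D Z x) = D ((g : Matrix (Fin n) (Fin n) ℂ) * Z *
      star (g : Matrix (Fin n) (Fin n) ℂ)) (ρ.op g x) := by
  have h := congrArg (fun T : ρ.Sp →L[ℂ] ρ.Sp => T x) (hD.conj_eq g Z)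
  exact h

theorem Tz_apply (ρ : URep n) (D : Matrix (Fin n) (Fin n) ℂ →ₗ[ℂ] (ρ.Sp →L[ℂ] ρ.Sp))
    (i j l : Fin n) (x : ρ.Sp) : Tz ρ D i j l x = D (EE i l) (D (EE l j) x) := rfl

theorem conj_T {ρ : URep n} {D : Matrix (Fin n) (Fin n) ℂ →ₗ[ℂ] (ρ.Sp →L[ℂ] ρ.Sp)}
    (hD : IsDer ρ D) {S : Finset (Fin n)} {l : Fin n} (hl : l ∉ S) (g : UU n) (hg : g ∈ UB S)
    (i j : Fin n) (v : ρ.Sp) (hv : ρ.op g v = v) :
    ρ.op g (Tz ρ D i j l v) = ∑ k, ∑ m, ((g : Matrix (Fin n) (Fin n) ℂ) k i *
      conj ((g : Matrix (Fin n) (Fin n) ℂ) m j)) • Tz ρ D k m l v := by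
  rw [Tz_apply, op_D hD, op_D hD, hv, conj_left hl g hg, conj_right hl g hg]
  simp only [map_sum, map_smul, _root_.sum_apply, _root_.smul_apply]
  conv_rhs => rw [Finset.sum_comm]
  refine Finset.sum_congr rfl fun m _ => ?_
  rw [Finset.smul_sum]
  refine Finset.sum_congr rfl fun k _ => ?_
  rw [smul_smul, Tz_apply, mul_comm]

theorem diag_entry {p : Fin n} (h : UU n) (hh : h ∈ UB ({p} : Finset (Fin n))) {i j : Fin n}
    (hij : i ≠ j) : (h : Matrix (Fin n) (Fin n) ℂ) i j = 0 := by
  have h1 : (h : Matrix (Fin n) (Fin n) ℂ) i j = if i = j then 1 else 0 := by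
    apply hh
    by_contra hcon
    push Not at hcon
    rw [Finset.mem_singleton, Finset.mem_singleton] at hcon
    exact hij (hcon.1.trans hcon.2.symm)
  rw [h1, if_neg hij]

theorem row_orth (h : UU n) (i j : Fin n) :
    ∑ k, (h : Matrix (Fin n) (Fin n) ℂ) i k * conj ((h : Matrix (Fin n) (Fin n) ℂ) j k) =
      if i = j then 1 else 0 := by
  have h1 := Matrix.mem_unitaryGroup_iff.1 h.2
  have h2 := congrFun (congrFun h1 i) j
  rw [Matrix.mul_apply, Matrix.one_apply] at h2
  exact h2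

theorem diag_norm {p : Fin n} (h : UU n) (hh : h ∈ UB ({p} : Finset (Fin n))) (i : Fin n) :
    (h : Matrix (Fin n) (Fin n) ℂ) i i * conj ((h : Matrix (Fin n) (Fin n) ℂ) i i) = 1 := by
  have h1 := row_orth h i i
  rw [if_pos rfl, Finset.sum_eq_single i] at h1
  · exact h1
  · intro k _ hk
    rw [diag_entry h hh (Ne.symm hk), zero_mul]
  · intro h
    exact absurd (Finset.mem_univ _) h

theorem conj_diag {p : Fin n} (h : UU n) (hh : h ∈ UB ({p} : Finset (Fin n))) (i j : Fin n) :
    (h : Matrix (Fin n) (Fin n) ℂ) * EE i j * star (h : Matrix (Fin n) (Fin n) ℂ) =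
      ((h : Matrix (Fin n) (Fin n) ℂ) i i * conj ((h : Matrix (Fin n) (Fin n) ℂ) j j)) •
        EE i j := by
  rw [conj_EE, Finset.sum_eq_single i, Finset.sum_eq_single j]
  · intro m _ hm
    rw [diag_entry h hh hm, map_zero, mul_zero, zero_smul]
  · intro h
    exact absurd (Finset.mem_univ _) h
  · intro k _ hk
    rw [diag_entry h hh hk]
    simp
  · intro h
    exact absurd (Finset.mem_univ _) h

theorem tinv_T {ρ : URep n} {D : Matrix (Fin n) (Fin n) ℂ →ₗ[ℂ] (ρ.Sp →L[ℂ] ρ.Sp)}
    (hD : IsDer ρ D) (i l : Fin n) (v : ρ.Sp) (hv : TInv ρ v) : TInv ρ (Tz ρ D i i l v) := by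
  intro p h hh
  rw [Tz_apply, op_D hD, op_D hD, hv p h hh, conj_diag h hh, conj_diag h hh]
  simp only [map_smul, _root_.smul_apply]
  rw [smul_smul]
  have h1 := diag_norm h hh i
  have h2 := diag_norm h hh l
  have h3 : (h : Matrix (Fin n) (Fin n) ℂ) l l * conj ((h : Matrix (Fin n) (Fin n) ℂ) i i) *
      ((h : Matrix (Fin n) (Fin n) ℂ) i i * conj ((h : Matrix (Fin n) (Fin n) ℂ) l l)) = 1 := by
    calc _ = ((h : Matrix (Fin n) (Fin n) ℂ) i i * conj ((h : Matrix (Fin n) (Fin n) ℂ) i i)) *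
        ((h : Matrix (Fin n) (Fin n) ℂ) l l * conj ((h : Matrix (Fin n) (Fin n) ℂ) l l)) := by ring
      _ = 1 := by rw [h1, h2, mul_one]
  rw [h3, one_smul]

theorem UB_mono {B S : Finset (Fin n)} (h : B ⊆ S) {g : UU n} (hg : g ∈ UB B) : g ∈ UB S := by
  intro i j hij
  apply hg
  rcases hij with h1 | h1
  · exact Or.inl fun h2 => h1 (h h2)
  · exact Or.inr fun h2 => h1 (h h2)

theorem P_op (ρ : URep n) (B : Finset (Fin n)) (g : UU n) (hg : g ∈ UB B) (x : ρ.Sp) :
    ρ.P B (ρ.op g x) = ρ.P B x := by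
  refine ext_inner_left ℂ fun y => ?_
  have h1 : ∀ a b : ρ.Sp, inner ℂ a (ρ.P B b) = inner ℂ (ρ.P B a) b := by
    intro a b
    rw [← ContinuousLinearMap.adjoint_inner_right, ← ContinuousLinearMap.star_eq_adjoint,
      FIX.P_star]
  have h2 : ρ.op g⁻¹ (ρ.P B y) = ρ.P B y := FIX.P_apply_inv ρ B y _ ((UB B).inv_mem hg)
  rw [h1, h1]
  have h3 := FIX.inner_op_left ρ g⁻¹ (ρ.P B y) x
  rw [inv_inv, h2] at h3
  exact h3.symm

theorem swap_apply {i j : Fin n} (k : Fin n) (hij : i ≠ j) :
    ((rfU hij (-1) : UU n) : Matrix (Fin n) (Fin n) ℂ) k i = if k = j then 1 else 0 := by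
  have h0 : ((rfU hij (-1) : UU n) : Matrix (Fin n) (Fin n) ℂ) = rf i j (-1) := rfl
  have h1 : ((2 / (1 + (-1 : ℝ) ^ 2) : ℝ) : ℂ) = 1 := by norm_num
  rw [h0, rf_apply, h1]
  unfold yv
  simp only [Pi.add_apply, Pi.single_apply, if_true, if_neg hij]
  by_cases hki : k = i
  · subst hki
    simp [hij]
  · by_cases hkj : k = j
    · subst hkj
      simp [hki]
    · simp [hki, hkj]

/-- ROW EQV. -/
theorem eqv : EQVStmt := by
  intro n ρ D hD S l hl v hT hF
  refine ⟨fun i _ => tinv_T hD i l v hT, ?_⟩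
  intro B hB i hi
  have hlB : l ∉ B := fun h => hl (hB h)
  have hgv : ∀ g ∈ UB B, ρ.op g v = v := fun g hg => hF g (UB_mono hB hg)
  by_cases hiB : i ∈ B
  · rw [if_pos hiB]
    have hK : ρ.P B (∑ j ∈ B, Tz ρ D j j l v) = ∑ j ∈ B, Tz ρ D j j l v := by
      apply FIX.P_inv
      intro g hg
      rw [map_sum]
      have h1 : ∀ j ∈ B, ρ.op g (Tz ρ D j j l v) = ∑ k, ∑ m,
          ((g : Matrix (Fin n) (Fin n) ℂ) k j * conj ((g : Matrix (Fin n) (Fin n) ℂ) m j)) •
            Tz ρ D k m l v := fun j _ => conj_T hD hlB g hg j j v (hgv g hg)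
      rw [Finset.sum_congr rfl h1, Finset.sum_comm]
      have h2 : ∀ k, ∑ j ∈ B, ∑ m,
          ((g : Matrix (Fin n) (Fin n) ℂ) k j * conj ((g : Matrix (Fin n) (Fin n) ℂ) m j)) •
            Tz ρ D k m l v = if k ∈ B then Tz ρ D k k l v else 0 := by
        intro k
        rw [Finset.sum_comm]
        by_cases hk : k ∈ B
        · rw [if_pos hk, Finset.sum_eq_single k]
          · rw [← Finset.sum_smul]
            have h3 := row_orth g k k
            rw [if_pos rfl, ← Finset.sum_subset (Finset.subset_univ B)] at h3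
            · rw [h3, one_smul]
            · intro j _ hj
              have h4 : (g : Matrix (Fin n) (Fin n) ℂ) k j = if k = j then 1 else 0 :=
                hg k j (Or.inr hj)
              rw [h4, if_neg, zero_mul]
              rintro rfl
              exact hj hk
          · intro m _ hm
            rw [← Finset.sum_smul]
            have h3 := row_orth g k m
            rw [if_neg (Ne.symm hm), ← Finset.sum_subset (Finset.subset_univ B)] at h3
            · rw [h3, zero_smul]
            · intro j _ hj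
              have h4 : (g : Matrix (Fin n) (Fin n) ℂ) k j = if k = j then 1 else 0 :=
                hg k j (Or.inr hj)
              rw [h4, if_neg, zero_mul]
              rintro rfl
              exact hj hk
          · intro h
            exact absurd (Finset.mem_univ _) h
        · rw [if_neg hk]
          refine Finset.sum_eq_zero fun m _ => Finset.sum_eq_zero fun j hj => ?_
          have h4 : (g : Matrix (Fin n) (Fin n) ℂ) k j = if k = j then 1 else 0 :=
            hg k j (Or.inl hk)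
          rw [h4, if_neg, zero_mul, zero_smul]
          rintro rfl
          exact hk hj
      rw [Finset.sum_congr rfl fun k _ => h2 k, ← Finset.sum_filter]
      refine Finset.sum_congr ?_ fun _ _ => rfl
      ext k
      simp
    have hsw : ∀ j ∈ B, ρ.P B (Tz ρ D j j l v) = ρ.P B (Tz ρ D i i l v) := by
      intro j hj
      by_cases hij : i = j
      · rw [hij]
      · have hs : rfU hij (-1) ∈ UB B := rfU_mem hij (-1) hiB hj
        rw [← P_op ρ B _ hs (Tz ρ D i i l v), conj_T hD hlB _ hs i i v (hgv _ hs)]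
        congr 1
        rw [Finset.sum_eq_single j, Finset.sum_eq_single j]
        · rw [swap_apply j hij, if_pos rfl, map_one, mul_one, one_smul]
        · intro m _ hm
          rw [swap_apply m hij, if_neg hm, map_zero, mul_zero, zero_smul]
        · intro h
          exact absurd (Finset.mem_univ _) h
        · intro k _ hk
          rw [swap_apply k hij, if_neg hk]
          simp
        · intro h
          exact absurd (Finset.mem_univ _) h
    rw [map_sum, Finset.sum_congr rfl hsw, Finset.sum_const] at hK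
    rw [← hK, ← Nat.cast_smul_eq_nsmul ℂ, smul_smul]
    have hc : (B.card : ℂ) ≠ 0 := by
      have : B.card ≠ 0 := Finset.card_ne_zero_of_mem hiB
      exact_mod_cast this
    rw [one_div, inv_mul_cancel₀ hc, one_smul]
  · rw [if_neg hiB]
    apply FIX.P_inv
    intro g hg
    rw [conj_T hD hlB g hg i i v (hgv g hg)]
    have h4 : ∀ k, (g : Matrix (Fin n) (Fin n) ℂ) k i = if k = i then 1 else 0 :=
      fun k => hg k i (Or.inr hiB)
    rw [Finset.sum_eq_single i, Finset.sum_eq_single i]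
    · rw [h4 i, if_pos rfl, map_one, mul_one, one_smul]
    · intro m _ hm
      rw [h4 m, if_neg hm, map_zero, mul_zero, zero_smul]
    · intro h
      exact absurd (Finset.mem_univ _) h
    · intro k _ hk
      rw [h4 k, if_neg hk]
      simp
    · intro h
      exact absurd (Finset.mem_univ _) h

end Pool.Agent.UTR.H20
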